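import Pool.Agent.SC63.OmEq

set_option autoImplicit false

/-!
# SC31/OmA2: limit and generating function of the order polynomial
-/

namespace Pool.SC31

open Pool.HB45 Pool.SC45 Filter

theorem des_le' {N : ℕ} (lab : Fin (N + 1) → ℕ) (g : Equiv.Perm (Fin (N + 1))) : des lab g ≤ N := by
  unfold des
  exact (Finset.card_filter_le _ _).trans (by simp)

/-- one term of the generating function -/
theorem hasSum_term (N d : ℕ) (hd : d ≤ N) {t : ℝ} (ht : 0 ≤ t) (ht1 : t < 1) :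
    HasSum (fun m : ℕ => ((m + N + 1 - d).choose (N + 1) : ℝ) * t ^ m)
      (t ^ d * (1 / (1 - t) ^ (N + 2))) := by
  have hn : ‖t‖ < 1 := by rw [Real.norm_eq_abs, abs_of_nonneg ht]; exact ht1
  have h0 := hasSum_choose_mul_geometric_of_norm_lt_one (𝕜 := ℝ) (N + 1) hn
  have h1 := h0.mul_left (t ^ d)
  rw [← hasSum_nat_add_iff' d]
  have hz : ∑ i ∈ Finset.range d, ((i + N + 1 - d).choose (N + 1) : ℝ) * t ^ i = 0 := by
    refine Finset.sum_eq_zero fun i hi => ?_
    rw [Finset.mem_range] at hi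
    rw [Nat.choose_eq_zero_of_lt (by omega)]
    simp
  rw [hz, sub_zero]
  have h2 : (fun n : ℕ => ((n + d + N + 1 - d).choose (N + 1) : ℝ) * t ^ (n + d)) =
      fun n : ℕ => t ^ d * (((n + (N + 1)).choose (N + 1) : ℝ) * t ^ n) := by
    funext n
    have e : n + d + N + 1 - d = n + (N + 1) := by omega
    rw [e, pow_add]
    ring
  rw [h2]
  exact h1

/-- limit of one term -/
theorem tendsto_term (k e : ℕ) :
    Tendsto (fun m : ℕ => ((m + e).choose k : ℝ) / (m : ℝ) ^ k) atTop (nhds (1 / (k.factorial : ℝ))) := by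
  have h1 : Tendsto (fun n : ℕ => (n.choose k : ℝ) / (n : ℝ) ^ k) atTop
      (nhds (1 / (k.factorial : ℝ))) := by
    have h2 := (isEquivalent_choose k).div
      (Asymptotics.IsEquivalent.refl (u := fun n : ℕ => (n : ℝ) ^ k) (l := atTop))
    refine h2.symm.tendsto_nhds ?_
    refine tendsto_const_nhds.congr' ?_
    filter_upwards [eventually_gt_atTop 0] with n hn
    have hn' : (n : ℝ) ≠ 0 := by exact_mod_cast hn.ne'
    have hk : (k.factorial : ℝ) ≠ 0 := by exact_mod_cast k.factorial_ne_zero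
    simp only [Pi.div_apply]
    field_simp
  have h3 : Tendsto (fun m : ℕ => ((m + e).choose k : ℝ) / ((m + e : ℕ) : ℝ) ^ k) atTop
      (nhds (1 / (k.factorial : ℝ))) := h1.comp (tendsto_add_atTop_nat e)
  have h4 : Tendsto (fun m : ℕ => (((m + e : ℕ) : ℝ) / (m : ℝ)) ^ k) atTop (nhds 1) := by
    have h5 : Tendsto (fun m : ℕ => ((m + e : ℕ) : ℝ) / (m : ℝ)) atTop (nhds 1) := by
      have h6 : Tendsto (fun m : ℕ => 1 + (e : ℝ) / (m : ℝ)) atTop (nhds (1 + 0)) :=
        tendsto_const_nhds.add (tendsto_const_div_atTop_nhds_zero_nat (e : ℝ))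
      rw [add_zero] at h6
      refine h6.congr' ?_
      filter_upwards [eventually_gt_atTop 0] with n hn
      have hn' : (n : ℝ) ≠ 0 := by exact_mod_cast hn.ne'
      push_cast
      field_simp
    simpa using h5.pow k
  have h7 := h3.mul h4
  rw [mul_one] at h7
  refine h7.congr' ?_
  filter_upwards [eventually_gt_atTop 0] with n hn
  have hn' : (n : ℝ) ≠ 0 := by exact_mod_cast hn.ne'
  have hn2 : ((n + e : ℕ) : ℝ) ≠ 0 := by
    have : n + e ≠ 0 := by omega
    exact_mod_cast this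
  rw [div_pow]
  field_simp

/-- `Om Q M / M^(N+1) → #LE / (N+1)!` -/
theorem Om_tendsto {N : ℕ} {Q : Rel (N + 1)} {lab : Fin (N + 1) → ℕ} (hn : Nat' Q lab) :
    Filter.Tendsto (fun M : ℕ => (Om Q M : ℝ) / (M : ℝ) ^ (N + 1)) Filter.atTop
      (nhds (((LE Q).card : ℝ) / ((N + 1).factorial : ℝ))) := by
  have h1 : ∀ M : ℕ, (Om Q M : ℝ) / (M : ℝ) ^ (N + 1) =
      ∑ g ∈ LE Q, ((M + (N + 1 - des lab g)).choose (N + 1) : ℝ) / (M : ℝ) ^ (N + 1) := by
    intro M
    rw [Pool.SC63.Om_eq' hn M, Nat.cast_sum, Finset.sum_div]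
    refine Finset.sum_congr rfl fun g _ => ?_
    have := des_le' lab g
    have e : M + N + 1 - des lab g = M + (N + 1 - des lab g) := by omega
    rw [e]
  have h2 : ((LE Q).card : ℝ) / ((N + 1).factorial : ℝ) =
      ∑ _g ∈ LE Q, 1 / ((N + 1).factorial : ℝ) := by
    rw [Finset.sum_const, nsmul_eq_mul]
    ring
  rw [h2]
  refine (tendsto_finsetSum _ fun g _ => tendsto_term (N + 1) (N + 1 - des lab g)).congr ?_
  intro M
  exact (h1 M).symm

/-- the generating function -/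
theorem Wr_eq_tsum {N : ℕ} {Q : Rel (N + 1)} {lab : Fin (N + 1) → ℕ} (hn : Nat' Q lab) (t : ℝ)
    (ht : 0 ≤ t) (ht1 : t < 1) :
    Summable (fun m : ℕ => (Om Q m : ℝ) * t ^ m) ∧
      Wr Q lab t = (1 - t) ^ (N + 2) * ∑' m : ℕ, (Om Q m : ℝ) * t ^ m := by
  have h1 : HasSum (fun m : ℕ => ∑ g ∈ LE Q, ((m + N + 1 - des lab g).choose (N + 1) : ℝ) * t ^ m)
      (∑ g ∈ LE Q, t ^ des lab g * (1 / (1 - t) ^ (N + 2))) :=
    hasSum_sum fun g _ => hasSum_term N (des lab g) (des_le' lab g) ht ht1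
  have h2 : (fun m : ℕ => (Om Q m : ℝ) * t ^ m) =
      fun m : ℕ => ∑ g ∈ LE Q, ((m + N + 1 - des lab g).choose (N + 1) : ℝ) * t ^ m := by
    funext m
    rw [Pool.SC63.Om_eq' hn m, Nat.cast_sum, Finset.sum_mul]
  rw [h2]
  refine ⟨h1.summable, ?_⟩
  rw [h1.tsum_eq]
  unfold Wr
  rw [← Finset.sum_mul]
  have h3 : (1 - t) ^ (N + 2) ≠ 0 := pow_ne_zero _ (by linarith)
  field_simp

end Pool.SC31
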